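import Pool.Agent.H24.SCG.Base

/-!
Strings of homologies do not generate `SL(3,F)` (module BV of the project SCG; the argument of
Brooksbank and Vicinsky).
-/

namespace Pool.Agent.H82.SCG

open Pool.SCG Matrix

section bv

variable {F : Type} [Field F]

theorem tv_mulVec (i j : Fin 3) (c : F) (w : Fin 3 → F) :
    transvection i j c *ᵥ w = w + (c * w j) • Pi.single i (1 : F) := by
  rw [transvection, add_mulVec, one_mulVec, single_mulVec_eq]

/-- the transvection as an element of `SL3` -/
def tvS (i j : Fin 3) (h : i ≠ j) (c : F) : SL3 F :=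
  ⟨transvection i j c, det_transvection_of_ne i j h c⟩

theorem mulVec_inv_cancel (m : SL3 F) (w : Fin 3 → F) :
    (m : M3 F) *ᵥ (((m⁻¹ : SL3 F) : M3 F) *ᵥ w) = w := by
  rw [mulVec_mulVec, ← Matrix.SpecialLinearGroup.coe_mul, mul_inv_cancel, Matrix.SpecialLinearGroup.coe_one,
    one_mulVec]

/-- a relation between vectors preserved by the generators is preserved by everything -/
theorem closure_pres {r : ℕ} (ρ : Fin r → Cor F) (hs : ∀ i, (ρ i).s = false)
    {β : Type} (b : (Fin 3 → F) → (Fin 3 → F) → β)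
    (hb : ∀ i u w, b (((ρ i).m : M3 F) *ᵥ u) (((ρ i).m : M3 F) *ᵥ w) = b u w)
    (x : Cor F) (hx : x ∈ Subgroup.closure (Set.range ρ)) :
    x.s = false ∧ ∀ u w, b ((x.m : M3 F) *ᵥ u) ((x.m : M3 F) *ᵥ w) = b u w := by
  induction hx using Subgroup.closure_induction with
  | mem x h =>
    obtain ⟨i, rfl⟩ := h
    exact ⟨hs i, hb i⟩
  | one =>
    refine ⟨rfl, fun u w => ?_⟩
    rw [Cor.one_m, Matrix.SpecialLinearGroup.coe_one, one_mulVec, one_mulVec]
  | mul x y _ _ hx hy =>
    refine ⟨by rw [Cor.mul_s, hx.1, hy.1]; rfl, fun u w => ?_⟩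
    have e : (x * y).m = x.m * y.m := by rw [Cor.mul_m, hy.1]; rfl
    rw [e, Matrix.SpecialLinearGroup.coe_mul, ← mulVec_mulVec, ← mulVec_mulVec, hx.2, hy.2]
  | inv x _ hx =>
    refine ⟨by rw [Cor.inv_s, hx.1], fun u w => ?_⟩
    have e : (x⁻¹).m = (x.m)⁻¹ := by rw [Cor.inv_m, hx.1]; rfl
    rw [e, ← hx.2, mulVec_inv_cancel, mulVec_inv_cancel]

/-- no invariant subspace -/
theorem irr_space {r : ℕ} (ρ : Fin r → Cor F) (hs : ∀ i, (ρ i).s = false)
    (hinv : ∀ i, ρ i * ρ i = 1)
    (hall : ∀ m : SL3 F, inn m ∈ Subgroup.closure (Set.range ρ))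
    (W : Submodule F (Fin 3 → F))
    (hW : ∀ i, ∀ w, w ∈ W → ((ρ i).m : M3 F) *ᵥ w ∈ W) : W = ⊥ ∨ W = ⊤ := by
  have hiff : ∀ i, ∀ w, ((ρ i).m : M3 F) *ᵥ w ∈ W ↔ w ∈ W := by
    intro i w
    constructor
    · intro h
      have h1 := hW i _ h
      have h2 : ((ρ i).m : M3 F) * ((ρ i).m : M3 F) = 1 :=
        (inner_sq_iff (x := ρ i) ⟨hs i, rfl⟩).1 (hinv i)
      rwa [mulVec_mulVec, h2, one_mulVec] at h1
    · exact hW i w
  have hpres : ∀ (m : SL3 F) (w : Fin 3 → F), ((m : M3 F) *ᵥ w ∈ W) ↔ w ∈ W := by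
    intro m w
    have := (closure_pres ρ hs (β := Prop) (fun u _ => u ∈ W)
      (fun i u _ => propext (hiff i u)) (inn m) (hall m)).2 w w
    rw [inn_m] at this
    exact iff_of_eq this
  have hstep : ∀ (w : Fin 3 → F), w ∈ W → ∀ i j : Fin 3, i ≠ j → w j ≠ 0 →
      Pi.single i (1 : F) ∈ W := by
    intro w hw i j hij hj
    have h1 := (hpres (tvS i j hij 1) w).2 hw
    have h2 : (tvS i j hij (1 : F) : M3 F) *ᵥ w = w + (1 * w j) • Pi.single i (1 : F) :=
      tv_mulVec i j 1 w
    rw [h2, one_mul] at h1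
    have h3 : w j • Pi.single i (1 : F) ∈ W := by
      have := W.sub_mem h1 hw
      rwa [add_sub_cancel_left] at this
    have h4 := W.smul_mem (w j)⁻¹ h3
    rwa [smul_smul, inv_mul_cancel₀ hj, one_smul] at h4
  by_cases hbot : W = ⊥
  · exact Or.inl hbot
  · right
    obtain ⟨w, hw, hw0⟩ := (Submodule.ne_bot_iff W).1 hbot
    obtain ⟨j, hj⟩ := Function.ne_iff.1 hw0
    have hj' : w j ≠ 0 := hj
    have h1 : ∀ i : Fin 3, i ≠ j → Pi.single i (1 : F) ∈ W := fun i hi => hstep w hw i j hi hj'
    obtain ⟨i, hi⟩ : ∃ i : Fin 3, i ≠ j := exists_ne j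
    have h2 : Pi.single j (1 : F) ∈ W := by
      refine hstep _ (h1 i hi) j i hi.symm ?_
      rw [Pi.single_eq_same]
      exact one_ne_zero
    have h3 : ∀ k : Fin 3, Pi.single k (1 : F) ∈ W := by
      intro k
      by_cases hk : k = j
      · rw [hk]; exact h2
      · exact h1 k hk
    rw [eq_top_iff]
    intro u _
    have e : u = ∑ k, u k • Pi.single k (1 : F) := by
      ext l
      simp [Finset.sum_apply, Pi.single_apply]
    rw [e]
    exact W.sum_mem (fun k _ => W.smul_mem _ (h3 k))

/-- no invariant form -/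
theorem irr_form {r : ℕ} (ρ : Fin r → Cor F) (hs : ∀ i, (ρ i).s = false)
    (hall : ∀ m : SL3 F, inn m ∈ Subgroup.closure (Set.range ρ))
    (T : (Fin 3 → F) →ₗ[F] (Fin 3 → F))
    (hT : ∀ i u w, T (((ρ i).m : M3 F) *ᵥ u) ⬝ᵥ (((ρ i).m : M3 F) *ᵥ w) = T u ⬝ᵥ w) :
    ∀ u w, T u ⬝ᵥ w = 0 := by
  have hpres : ∀ (m : SL3 F) (u w : Fin 3 → F),
      T ((m : M3 F) *ᵥ u) ⬝ᵥ ((m : M3 F) *ᵥ w) = T u ⬝ᵥ w := by
    intro m u w
    have := (closure_pres ρ hs (β := F) (fun u w => T u ⬝ᵥ w) hT (inn m) (hall m)).2 u w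
    rwa [inn_m] at this
  have h1 : ∀ i k : Fin 3, T (Pi.single i (1 : F)) ⬝ᵥ Pi.single k (1 : F) = 0 := by
    intro i k
    obtain ⟨j, hji, hjk⟩ : ∃ j : Fin 3, j ≠ i ∧ j ≠ k := by
      revert i k; decide
    have h := hpres (tvS i j hji.symm 1) (Pi.single j 1) (Pi.single k 1)
    have e1 : (tvS i j hji.symm (1 : F) : M3 F) *ᵥ Pi.single j (1 : F) =
        Pi.single j (1 : F) + Pi.single i (1 : F) := by
      have := tv_mulVec i j (1 : F) (Pi.single j 1)
      rw [Pi.single_eq_same, one_mul, one_smul] at this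
      exact this
    have e2 : (tvS i j hji.symm (1 : F) : M3 F) *ᵥ Pi.single k (1 : F) = Pi.single k (1 : F) := by
      have := tv_mulVec i j (1 : F) (Pi.single k 1)
      rw [Pi.single_eq_of_ne hjk, mul_zero, zero_smul, add_zero] at this
      exact this
    rw [e1, e2, map_add, add_dotProduct] at h
    exact left_eq_add.1 h.symm
  have e : ∀ u : Fin 3 → F, u = ∑ k, u k • Pi.single k (1 : F) := by
    intro u
    ext l
    simp [Finset.sum_apply, Pi.single_apply]
  intro u w
  rw [e u, e w, map_sum, sum_dotProduct]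
  apply Finset.sum_eq_zero
  intro i _
  rw [dotProduct_sum]
  apply Finset.sum_eq_zero
  intro k _
  rw [map_smul, smul_dotProduct, dotProduct_smul, h1, smul_zero, smul_zero]

/-- action of a homology -/
theorem hom_mulVec {x : Cor F} {v φ : Fin 3 → F} (h : IsHom x v φ) (w : Fin 3 → F) :
    (x.m : M3 F) *ᵥ w = (2 * (φ ⬝ᵥ w)) • v - w := by
  rw [h.2.2, sub_mulVec, one_mulVec, smul_mulVec, vecMulVec_mulVec]
  ext i
  simp only [Pi.sub_apply, Pi.smul_apply, smul_eq_mul, MulOpposite.smul_eq_mul_unop,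
    MulOpposite.unop_op]
  ring

end bv

theorem bv_thm (hINV : Pool.SCG.INVStmt) (hHCM : Pool.SCG.HCMStmt) : Pool.SCG.BVStmt := by
  intro F _ _ hG r ρ hinv hs hfar hadj
  by_contra hcon
  push Not at hcon
  have h2 : (2 : F) ≠ 0 := hG.1
  have hhom : ∀ i, ∃ v φ : Fin 3 → F, IsHom (ρ i) v φ := by
    intro i
    rcases hINV F h2 (ρ i) (hinv i).1 (hinv i).2 with h | h
    · exact h
    · rw [hs i] at h
      exact absurd h.1 Bool.false_ne_true
  choose v φ hh using hhom
  have hact : ∀ i w, ((ρ i).m : M3 F) *ᵥ w = (2 * (φ i ⬝ᵥ w)) • v i - w :=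
    fun i w => hom_mulVec (hh i) w
  have hone : ∀ i, φ i ⬝ᵥ v i = 1 := fun i => (hh i).2.1
  have hirr := irr_space ρ hs (fun i => (hinv i).2) hcon
  -- separation lemma
  have hsep : ∀ S : Set (Fin r), (∀ j ∈ S, ∀ k, k ∉ S → φ k ⬝ᵥ v j = 0) → ∀ j ∈ S, ∀ k, k ∈ S := by
    intro S hS j hj k
    by_contra hk
    set W : Submodule F (Fin 3 → F) := Submodule.span F (v '' S) with hWdef
    have hker : ∀ l, l ∉ S → ∀ w ∈ W, φ l ⬝ᵥ w = 0 := by
      intro l hl w hw
      induction hw using Submodule.span_induction with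
      | mem x h =>
        obtain ⟨j, hj, rfl⟩ := h
        exact hS j hj l hl
      | zero => simp
      | add x y _ _ hx hy => rw [dotProduct_add, hx, hy, add_zero]
      | smul a x _ hx => rw [dotProduct_smul, hx, smul_zero]
    have hinvW : ∀ i, ∀ w, w ∈ W → ((ρ i).m : M3 F) *ᵥ w ∈ W := by
      intro i w hw
      rw [hact]
      by_cases hi : i ∈ S
      · exact W.sub_mem (W.smul_mem _ (Submodule.subset_span ⟨i, hi, rfl⟩)) hw
      · rw [hker i hi w hw, mul_zero, zero_smul]
        exact W.sub_mem W.zero_mem hw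
    rcases hirr W hinvW with h | h
    · have : v j ∈ W := Submodule.subset_span ⟨j, hj, rfl⟩
      rw [h, Submodule.mem_bot] at this
      have h1 := hone j
      rw [this, dotProduct_zero] at h1
      exact zero_ne_one h1
    · have : v k ∈ W := by rw [h]; trivial
      have h1 := hker k hk _ this
      rw [hone k] at h1
      exact one_ne_zero h1
  -- the centres span
  have hspan : Submodule.span F (Set.range v) = ⊤ := by
    have hinvW : ∀ i, ∀ w, w ∈ Submodule.span F (Set.range v) →
        ((ρ i).m : M3 F) *ᵥ w ∈ Submodule.span F (Set.range v) := by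
      intro i w hw
      rw [hact]
      exact Submodule.sub_mem _ (Submodule.smul_mem _ _ (Submodule.subset_span ⟨i, rfl⟩)) hw
    rcases hirr _ hinvW with h | h
    · exfalso
      have hr : ∀ i : Fin r, False := by
        intro i
        have : v i ∈ Submodule.span F (Set.range v) := Submodule.subset_span ⟨i, rfl⟩
        rw [h, Submodule.mem_bot] at this
        have h1 := hone i
        rw [this, dotProduct_zero] at h1
        exact zero_ne_one h1
      have := irr_form ρ hs hcon LinearMap.id (fun i => (hr i).elim) (Pi.single 0 1) (Pi.single 0 1)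
      simp at this
    · exact h
  -- far homologies are orthogonal
  have hfar0 : ∀ i j : Fin r, i.val + 2 ≤ j.val → ρ i ≠ ρ j := by
    intro i j hij heq
    have hr := j.isLt
    by_cases h1 : i.val + 3 ≤ j.val
    · have hk : i.val + 1 < r := by omega
      apply hadj i ⟨i.val + 1, hk⟩ rfl
      have := hfar ⟨i.val + 1, hk⟩ j (by simp only []; omega)
      rw [heq]; exact this.symm
    · have hj : j.val = i.val + 2 := by omega
      by_cases hi : 1 ≤ i.val
      · have hk : i.val - 1 < r := by omega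
        apply hadj ⟨i.val - 1, hk⟩ i (by simp only []; omega)
        have := hfar ⟨i.val - 1, hk⟩ j (by simp only []; omega)
        rw [heq]; exact this
      · by_cases hr3 : 3 < r
        · apply hadj j ⟨3, hr3⟩ (by simp only []; omega)
          have := hfar i ⟨3, hr3⟩ (by simp only []; omega)
          rw [← heq]; exact this
        · -- r = 3, the centres of 0 and 2 are proportional
          have hr' : r = 3 := by omega
          subst hr'
          have hi0 : i = 0 := by apply Fin.ext; show i.val = 0; omega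
          have hj2 : j = 2 := by apply Fin.ext; show j.val = 2; omega
          subst hi0; subst hj2
          have e1 := hact 0 (v 0)
          have e2 := hact 2 (v 0)
          rw [heq, e2, hone 0, mul_one] at e1
          have e3 : v 0 = (φ 2 ⬝ᵥ v 0) • v 2 := by
            have e4 : (2 : F) • v 0 = (2 * (φ 2 ⬝ᵥ v 0)) • v 2 := (sub_left_inj.1 e1).symm
            have e5 := congrArg (fun z => (2 : F)⁻¹ • z) e4
            simp only [smul_smul] at e5
            rw [inv_mul_cancel₀ h2, one_smul, ← mul_assoc, inv_mul_cancel₀ h2, one_mul] at e5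
            exact e5
          have hle : Submodule.span F (Set.range v) ≤ Submodule.span F (Set.range ![v 1, v 2]) := by
            rw [Submodule.span_le]
            rintro _ ⟨k, rfl⟩
            have m1 : v 1 ∈ Submodule.span F (Set.range ![v 1, v 2]) :=
              Submodule.subset_span ⟨0, rfl⟩
            have m2 : v 2 ∈ Submodule.span F (Set.range ![v 1, v 2]) :=
              Submodule.subset_span ⟨1, rfl⟩
            fin_cases k
            · show v 0 ∈ _
              rw [e3]
              exact Submodule.smul_mem _ _ m2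
            · exact m1
            · exact m2
          rw [hspan, top_le_iff] at hle
          have hd := finrank_range_le_card (R := F) (b := ![v 1, v 2])
          rw [Set.finrank, hle, finrank_top, Module.finrank_fin_fun, Fintype.card_fin] at hd
          omega
  have hfarφ : ∀ i j : Fin r, (i.val + 2 ≤ j.val ∨ j.val + 2 ≤ i.val) → φ i ⬝ᵥ v j = 0 := by
    intro i j hij
    rcases hij with h | h
    · exact (hHCM F h2 _ _ _ _ _ _ (hh i) (hh j) (hfar i j h) (hfar0 i j h)).1
    · exact (hHCM F h2 _ _ _ _ _ _ (hh j) (hh i) (hfar j i h) (hfar0 j i h)).2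
  -- adjacent homologies
  have hadj1 : ∀ i j : Fin r, i.val + 1 = j.val → φ i ⬝ᵥ v j ≠ 0 := by
    intro i j hij h0
    have := hsep {k | i.val < k.val} (by
      intro a ha b hb
      simp only [Set.mem_ofPred_eq] at ha hb
      by_cases hab : b.val + 2 ≤ a.val
      · exact hfarφ b a (Or.inl hab)
      · have hb' : b = i := Fin.ext (by omega)
        have ha' : a = j := Fin.ext (by omega)
        rw [hb', ha']; exact h0) j (by simp only [Set.mem_ofPred_eq]; omega) i
    simp only [Set.mem_ofPred_eq] at this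
    omega
  have hadj2 : ∀ i j : Fin r, i.val + 1 = j.val → φ j ⬝ᵥ v i ≠ 0 := by
    intro i j hij h0
    have := hsep {k | k.val ≤ i.val} (by
      intro a ha b hb
      simp only [Set.mem_ofPred_eq] at ha hb
      by_cases hab : a.val + 2 ≤ b.val
      · exact hfarφ b a (Or.inr hab)
      · have hb' : b = j := Fin.ext (by omega)
        have ha' : a = i := Fin.ext (by omega)
        rw [hb', ha']; exact h0) i (by simp only [Set.mem_ofPred_eq]; omega) j
    simp only [Set.mem_ofPred_eq] at this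
    omega
  -- scaling
  obtain ⟨c, hc0, hc⟩ : ∃ c : Fin r → F, (∀ i, c i ≠ 0) ∧
      ∀ i j : Fin r, i.val + 1 = j.val → c i * (φ i ⬝ᵥ v j) = c j * (φ j ⬝ᵥ v i) := by
    classical
    let g : ℕ → F := fun n => if h : n + 1 < r then
      (φ ⟨n, by omega⟩ ⬝ᵥ v ⟨n + 1, h⟩) * (φ ⟨n + 1, h⟩ ⬝ᵥ v ⟨n, by omega⟩)⁻¹ else 1
    have hg : ∀ n, g n ≠ 0 := by
      intro n
      by_cases h : n + 1 < r
      · simp only [g, dif_pos h]
        exact mul_ne_zero (hadj1 _ _ rfl) (inv_ne_zero (hadj2 _ _ rfl))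
      · simp only [g, dif_neg h]
        exact one_ne_zero
    refine ⟨fun i => ∏ n ∈ Finset.range i.val, g n,
      fun i => Finset.prod_ne_zero_iff.2 (fun n _ => hg n), ?_⟩
    intro i j hij
    have hlt : i.val + 1 < r := by have := j.isLt; omega
    obtain rfl : j = ⟨i.val + 1, hlt⟩ := Fin.ext hij.symm
    show (∏ n ∈ Finset.range i.val, g n) * _ = (∏ n ∈ Finset.range (i.val + 1), g n) * _
    rw [Finset.prod_range_succ]
    have e : g i.val = (φ i ⬝ᵥ v ⟨i.val + 1, hlt⟩) * (φ ⟨i.val + 1, hlt⟩ ⬝ᵥ v i)⁻¹ := by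
      simp only [g, dif_pos hlt]
    rw [e]
    have hne := hadj2 i ⟨i.val + 1, hlt⟩ rfl
    field_simp
  have hsym : ∀ i j : Fin r, c i * (φ i ⬝ᵥ v j) = c j * (φ j ⬝ᵥ v i) := by
    intro i j
    by_cases h1 : i.val + 2 ≤ j.val ∨ j.val + 2 ≤ i.val
    · rw [hfarφ i j h1, hfarφ j i (h1.symm), mul_zero, mul_zero]
    · by_cases h2 : i.val + 1 = j.val
      · exact hc i j h2
      · by_cases h3 : j.val + 1 = i.val
        · exact (hc j i h3).symm
        · have : i = j := Fin.ext (by omega)
          rw [this]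
  -- the form
  let L : (Fin r → F) →ₗ[F] (Fin 3 → F) := Fintype.linearCombination F v
  let R : (Fin r → F) →ₗ[F] (Fin 3 → F) := Fintype.linearCombination F (fun i => c i • φ i)
  have hLs : LinearMap.range L = ⊤ := by
    rw [Fintype.range_linearCombination]; exact hspan
  obtain ⟨g, hg⟩ := L.exists_rightInverse_of_surjective hLs
  have hL1 : ∀ a, L a = ∑ i, a i • v i := fun a => Fintype.linearCombination_apply F v a
  have hR1 : ∀ a, R a = ∑ i, a i • (c i • φ i) := fun a => Fintype.linearCombination_apply F _ a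
  have hRL : ∀ a j, R a ⬝ᵥ v j = c j * (φ j ⬝ᵥ L a) := by
    intro a j
    rw [hR1, hL1, sum_dotProduct, dotProduct_sum, Finset.mul_sum]
    apply Finset.sum_congr rfl
    intro i _
    rw [smul_dotProduct, smul_dotProduct, dotProduct_smul, smul_eq_mul, smul_eq_mul, smul_eq_mul,
      hsym i j]
    ring
  have hzero : ∀ z : Fin 3 → F, (∀ j, z ⬝ᵥ v j = 0) → ∀ w, z ⬝ᵥ w = 0 := by
    intro z hz w
    have hw : w ∈ Submodule.span F (Set.range v) := by rw [hspan]; trivial
    induction hw using Submodule.span_induction with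
    | mem x h =>
      obtain ⟨j, rfl⟩ := h
      exact hz j
    | zero => simp
    | add x y _ _ hx hy => rw [dotProduct_add, hx, hy, add_zero]
    | smul a x _ hx => rw [dotProduct_smul, hx, smul_zero]
  let T : (Fin 3 → F) →ₗ[F] (Fin 3 → F) := R.comp g
  have hTv : ∀ u j, T u ⬝ᵥ v j = c j * (φ j ⬝ᵥ u) := by
    intro u j
    have h1 : L (g u) = u := by
      have := LinearMap.congr_fun hg u
      simpa using this
    show R (g u) ⬝ᵥ v j = _
    rw [hRL, h1]
  have hTw : ∀ i w, T (v i) ⬝ᵥ w = c i * (φ i ⬝ᵥ w) := by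
    intro i w
    have := hzero (T (v i) - c i • φ i) (by
      intro j
      rw [sub_dotProduct, hTv, smul_dotProduct, smul_eq_mul, hsym i j, sub_self]) w
    rw [sub_dotProduct, smul_dotProduct, smul_eq_mul] at this
    exact sub_eq_zero.1 this
  have hform := irr_form ρ hs hcon T (by
    intro i u w
    rw [hact, hact, map_sub, map_smul, sub_dotProduct, dotProduct_sub, dotProduct_sub,
      smul_dotProduct, smul_dotProduct, dotProduct_smul, dotProduct_smul, hTw, hTw, hTv, hone]
    simp only [smul_eq_mul]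
    ring)
  -- conclusion
  have hr : 0 < r := by
    by_contra hr
    have hr0 : r = 0 := by omega
    subst hr0
    have : Submodule.span F (Set.range v) = ⊥ := by
      rw [Set.range_eq_empty, Submodule.span_empty]
    rw [hspan] at this
    exact top_ne_bot this
  have h1 := hform (v ⟨0, hr⟩) (v ⟨0, hr⟩)
  rw [hTw, hone, mul_one] at h1
  exact hc0 _ h1

end Pool.Agent.H82.SCG
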