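import Pool.Agent.H24.SCG.Base

/-!
Generation of `Cor F` by the four generators (module EXG of the project SCG).
-/

namespace Pool.Agent.H82.SCG

open Pool.SCG Matrix

section gen

variable {F : Type} [Field F]

/-- the matrix `A` is the matrix of an inner element of `H` -/
def InM (H : Subgroup (Cor F)) (A : M3 F) : Prop := ∃ x ∈ H, Is x false A

theorem InM.mul {H : Subgroup (Cor F)} {A B : M3 F} (hA : InM H A) (hB : InM H B) :
    InM H (A * B) := by
  obtain ⟨x, hx, hxA⟩ := hA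
  obtain ⟨y, hy, hyB⟩ := hB
  exact ⟨x * y, H.mul_mem hx hy, hxA.mul_inner hyB⟩

theorem InM.one {H : Subgroup (Cor F)} : InM H (1 : M3 F) := ⟨1, H.one_mem, is_one⟩

theorem InM.list_prod {H : Subgroup (Cor F)} (L : List (M3 F)) (h : ∀ A ∈ L, InM H A) :
    InM H L.prod := by
  induction L with
  | nil => simpa using (InM.one (H := H))
  | cons A L ih =>
    rw [List.prod_cons]
    exact (h A (by simp)).mul (ih (fun B hB => h B (by simp [hB])))

theorem InM.det {H : Subgroup (Cor F)} {A : M3 F} (hA : InM H A) : A.det = 1 := by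
  obtain ⟨x, _, hx⟩ := hA
  exact hx.det

/-- the torus -/
theorem torus {H : Subgroup (Cor F)} (τ : F) (hτ : ∀ x : F, x ≠ 0 → ∃ n : ℕ, τ ^ n = x)
    (hq : InM H !![0, 0, -1; 0, -1, 0; -1, 0, 0])
    (ht : InM H (dg τ τ⁻¹ 1)) (x y : F) (hx : x ≠ 0) (hy : y ≠ 0) :
    InM H (dg x (x * y)⁻¹ y) := by
  have h1 : ∀ z : F, z ≠ 0 → InM H (dg z z⁻¹ 1) := by
    intro z hz
    obtain ⟨n, hn⟩ := hτ z hz
    obtain ⟨g, hg, hgt⟩ := ht
    have := hgt.pow_dg n
    refine ⟨g ^ n, H.pow_mem hg n, ?_⟩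
    rwa [one_pow, inv_pow, hn] at this
  have h2 : InM H (dg 1 y⁻¹ y) := by
    have := (hq.mul (h1 y hy)).mul hq
    have e : (!![0, 0, -1; 0, -1, 0; -1, 0, 0] : M3 F) * dg y y⁻¹ 1 *
        !![0, 0, -1; 0, -1, 0; -1, 0, 0] = dg 1 y⁻¹ y := by
      ext i j
      fin_cases i <;> fin_cases j <;> simp [dg, Matrix.mul_apply, Fin.sum_univ_three]
    rwa [e] at this
  have h3 := (h1 x hx).mul h2
  rw [dg_mul] at h3
  have e : dg (x * 1) (x⁻¹ * y⁻¹) (1 * y) = dg x (x * y)⁻¹ y := by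
    rw [mul_one, one_mul, mul_inv]
  rwa [e] at h3

/-- the elementary matrices of the last column, both entries nonzero -/
theorem elem2 {H : Subgroup (Cor F)} (h2 : (2 : F) ≠ 0) (h3 : (3 : F) ≠ 0)
    (hcube : ∀ x : F, ∃ y : F, y ^ 3 = x)
    (hT : ∀ x y : F, x ≠ 0 → y ≠ 0 → InM H (dg x (x * y)⁻¹ y))
    (hd : InM H ((2 * (3 : F)⁻¹) • !![1, 1, 1; 1, 1, 1; 1, 1, 1] - 1))
    (u v : F) (hu : u ≠ 0) (hv : v ≠ 0) : InM H !![1, 0, u; 0, 1, v; 0, 0, 1] := by
  set D : M3 F := (2 * (3 : F)⁻¹) • !![1, 1, 1; 1, 1, 1; 1, 1, 1] - 1 with hD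
  obtain ⟨s, hs⟩ := hcube (-2)
  have hs0 : s ≠ 0 := by
    rintro rfl
    have : (0 : F) ^ 3 = 0 := by simp
    rw [this] at hs
    exact h2 (by linear_combination hs)
  have t1 : InM H (s⁻¹ • dg 1 1 (-2)) := by
    have := hT s⁻¹ (s ^ 2) (inv_ne_zero hs0) (pow_ne_zero 2 hs0)
    have e : dg s⁻¹ (s⁻¹ * s ^ 2)⁻¹ (s ^ 2) = s⁻¹ • dg 1 1 (-2) := by
      have e1 : (s⁻¹ * s ^ 2)⁻¹ = s⁻¹ := by field_simp
      have e2 : s ^ 2 = s⁻¹ * (-2) := by
        field_simp
        linear_combination hs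
      rw [e1]
      ext i j
      fin_cases i <;> fin_cases j <;> simp [dg]
      rw [e2]; ring
    rwa [e] at this
  have t2 : InM H (s • dg 1 1 (-(2 : F)⁻¹)) := by
    have := hT s (s⁻¹ ^ 2) hs0 (pow_ne_zero 2 (inv_ne_zero hs0))
    have e : dg s (s * s⁻¹ ^ 2)⁻¹ (s⁻¹ ^ 2) = s • dg 1 1 (-(2 : F)⁻¹) := by
      have e1 : (s * s⁻¹ ^ 2)⁻¹ = s := by field_simp
      have e2 : s⁻¹ ^ 2 = s * (-(2 : F)⁻¹) := by
        field_simp
        linear_combination hs
      rw [e1]
      ext i j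
      fin_cases i <;> fin_cases j <;> simp [dg]
      rw [← inv_pow, e2]; ring
    rwa [e] at this
  have t3 : InM H (dg (-1) (-1) (1 : F)) := by
    have := hT (-1) 1 (by simp) one_ne_zero
    have e : dg (-1) (-1 * 1)⁻¹ (1 : F) = dg (-1) (-1) 1 := by
      rw [mul_one, inv_neg, inv_one]
    rwa [e] at this
  have hE : InM H !![1, 0, -1; 0, 1, -1; 0, 0, 1] := by
    have := ((((hd.mul t1).mul hd).mul t2).mul hd).mul t3
    have e : D * (s⁻¹ • dg 1 1 (-2)) * D * (s • dg 1 1 (-(2 : F)⁻¹)) * D * dg (-1) (-1) (1 : F) =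
        !![1, 0, -1; 0, 1, -1; 0, 0, 1] := by
      have e0 : D * (s⁻¹ • dg 1 1 (-2)) * D * (s • dg 1 1 (-(2 : F)⁻¹)) * D * dg (-1) (-1) (1 : F)
          = (s⁻¹ * s) • ((D * dg 1 1 (-2)) * (D * dg 1 1 (-(2 : F)⁻¹)) * (D * dg (-1) (-1) (1 : F)))
          := by
        simp only [Matrix.mul_smul, Matrix.smul_mul, smul_smul, mul_assoc, mul_comm s s⁻¹]
      rw [e0, inv_mul_cancel₀ hs0, one_smul]
      have eD : D = !![-(3 : F)⁻¹, 2 * 3⁻¹, 2 * 3⁻¹; 2 * 3⁻¹, -(3 : F)⁻¹, 2 * 3⁻¹;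
          2 * 3⁻¹, 2 * 3⁻¹, -(3 : F)⁻¹] := by
        rw [hD]
        have e3 : (2 : F) * 3⁻¹ - 1 = -3⁻¹ := by field_simp; ring
        ext i j
        fin_cases i <;> fin_cases j <;> simp [e3]
      rw [eD]
      simp only [dg, Matrix.mul_fin_three]
      ext i j
      fin_cases i <;> fin_cases j <;> simp <;> field_simp <;> ring
    rwa [e] at this
  obtain ⟨z, hz⟩ := hcube (u * v)⁻¹
  have huv : (u * v) ≠ 0 := mul_ne_zero hu hv
  have hz0 : z ≠ 0 := by
    rintro rfl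
    have : (0 : F) ^ 3 = 0 := by simp
    rw [this] at hz
    exact inv_ne_zero huv hz.symm
  have hz3 : z ^ 3 * (u * v) = 1 := by rw [hz]; exact inv_mul_cancel₀ huv
  have ta : InM H (dg (-(u * z)) (-(v * z)) z) := by
    have := hT (-(u * z)) z (neg_ne_zero.2 (mul_ne_zero hu hz0)) hz0
    have e : (-(u * z) * z)⁻¹ = -(v * z) := by
      rw [inv_eq_iff_eq_inv]
      apply eq_inv_of_mul_eq_one_left
      linear_combination hz3
    rwa [e] at this
  have tb : InM H (dg (-(u * z))⁻¹ (-(v * z))⁻¹ z⁻¹) := by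
    have := hT (-(u * z))⁻¹ z⁻¹ (inv_ne_zero (neg_ne_zero.2 (mul_ne_zero hu hz0)))
      (inv_ne_zero hz0)
    have e : ((-(u * z))⁻¹ * z⁻¹)⁻¹ = (-(v * z))⁻¹ := by
      rw [← mul_inv, inv_inv]
      apply eq_inv_of_mul_eq_one_left
      linear_combination hz3
    rwa [e] at this
  have := (ta.mul hE).mul tb
  have e : dg (-(u * z)) (-(v * z)) z * !![1, 0, -1; 0, 1, -1; 0, 0, 1] *
      dg (-(u * z))⁻¹ (-(v * z))⁻¹ z⁻¹ = !![1, 0, u; 0, 1, v; 0, 0, 1] := by
    simp only [dg, Matrix.mul_fin_three]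
    ext i j
    fin_cases i <;> fin_cases j <;> simp [hz0]
    · field_simp
    · field_simp
  rwa [e] at this

/-- all transvections -/
theorem transv {H : Subgroup (Cor F)} (h2 : (2 : F) ≠ 0)
    (hp : InM H !![0, -1, 0; -1, 0, 0; 0, 0, -1])
    (hq : InM H !![0, 0, -1; 0, -1, 0; -1, 0, 0])
    (hU : ∀ u v : F, u ≠ 0 → v ≠ 0 → InM H !![1, 0, u; 0, 1, v; 0, 0, 1])
    (i j : Fin 3) (hij : i ≠ j) (c : F) : InM H (transvection i j c) := by
  have h13 : ∀ x : F, InM H !![1, 0, x; 0, 1, 0; 0, 0, 1] := by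
    intro x
    by_cases hx : x = 0
    · subst hx
      have e : (!![1, 0, 0; 0, 1, 0; 0, 0, 1] : M3 F) = 1 := by
        ext i j
        fin_cases i <;> fin_cases j <;> simp
      rw [e]; exact InM.one
    · have := (hU (2 * x) 1 (mul_ne_zero h2 hx) one_ne_zero).mul
        (hU (-x) (-1) (neg_ne_zero.2 hx) (by simp))
      have e : (!![1, 0, 2 * x; 0, 1, 1; 0, 0, 1] : M3 F) * !![1, 0, -x; 0, 1, -1; 0, 0, 1] =
          !![1, 0, x; 0, 1, 0; 0, 0, 1] := by
        simp only [Matrix.mul_fin_three]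
        ext i j
        fin_cases i <;> fin_cases j <;> simp
        ring
      rwa [e] at this
  have h23 : ∀ x : F, InM H !![1, 0, 0; 0, 1, x; 0, 0, 1] := by
    intro x
    have := (hp.mul (h13 x)).mul hp
    have e : (!![0, -1, 0; -1, 0, 0; 0, 0, -1] : M3 F) * !![1, 0, x; 0, 1, 0; 0, 0, 1] *
        !![0, -1, 0; -1, 0, 0; 0, 0, -1] = !![1, 0, 0; 0, 1, x; 0, 0, 1] := by
      simp only [Matrix.mul_fin_three]
      ext i j
      fin_cases i <;> fin_cases j <;> simp
    rwa [e] at this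
  have h31 : ∀ x : F, InM H !![1, 0, 0; 0, 1, 0; x, 0, 1] := by
    intro x
    have := (hq.mul (h13 x)).mul hq
    have e : (!![0, 0, -1; 0, -1, 0; -1, 0, 0] : M3 F) * !![1, 0, x; 0, 1, 0; 0, 0, 1] *
        !![0, 0, -1; 0, -1, 0; -1, 0, 0] = !![1, 0, 0; 0, 1, 0; x, 0, 1] := by
      simp only [Matrix.mul_fin_three]
      ext i j
      fin_cases i <;> fin_cases j <;> simp
    rwa [e] at this
  have h21 : ∀ x : F, InM H !![1, 0, 0; x, 1, 0; 0, 0, 1] := by
    intro x
    have := (hq.mul (h23 x)).mul hq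
    have e : (!![0, 0, -1; 0, -1, 0; -1, 0, 0] : M3 F) * !![1, 0, 0; 0, 1, x; 0, 0, 1] *
        !![0, 0, -1; 0, -1, 0; -1, 0, 0] = !![1, 0, 0; x, 1, 0; 0, 0, 1] := by
      simp only [Matrix.mul_fin_three]
      ext i j
      fin_cases i <;> fin_cases j <;> simp
    rwa [e] at this
  have h32 : ∀ x : F, InM H !![1, 0, 0; 0, 1, 0; 0, x, 1] := by
    intro x
    have := (hp.mul (h31 x)).mul hp
    have e : (!![0, -1, 0; -1, 0, 0; 0, 0, -1] : M3 F) * !![1, 0, 0; 0, 1, 0; x, 0, 1] *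
        !![0, -1, 0; -1, 0, 0; 0, 0, -1] = !![1, 0, 0; 0, 1, 0; 0, x, 1] := by
      simp only [Matrix.mul_fin_three]
      ext i j
      fin_cases i <;> fin_cases j <;> simp
    rwa [e] at this
  have h12 : ∀ x : F, InM H !![1, x, 0; 0, 1, 0; 0, 0, 1] := by
    intro x
    have := (hp.mul (h21 x)).mul hp
    have e : (!![0, -1, 0; -1, 0, 0; 0, 0, -1] : M3 F) * !![1, 0, 0; x, 1, 0; 0, 0, 1] *
        !![0, -1, 0; -1, 0, 0; 0, 0, -1] = !![1, x, 0; 0, 1, 0; 0, 0, 1] := by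
      simp only [Matrix.mul_fin_three]
      ext i j
      fin_cases i <;> fin_cases j <;> simp
    rwa [e] at this
  have key : ∀ A : M3 F, InM H A → transvection i j c = A → InM H (transvection i j c) := by
    intro A hA h
    rw [h]; exact hA
  fin_cases i <;> fin_cases j
  · exact absurd rfl hij
  · refine key _ (h12 c) ?_
    ext i j
    fin_cases i <;> fin_cases j <;> simp [transvection]
  · refine key _ (h13 c) ?_
    ext i j
    fin_cases i <;> fin_cases j <;> simp [transvection]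
  · refine key _ (h21 c) ?_
    ext i j
    fin_cases i <;> fin_cases j <;> simp [transvection]
  · exact absurd rfl hij
  · refine key _ (h23 c) ?_
    ext i j
    fin_cases i <;> fin_cases j <;> simp [transvection]
  · refine key _ (h31 c) ?_
    ext i j
    fin_cases i <;> fin_cases j <;> simp [transvection]
  · refine key _ (h32 c) ?_
    ext i j
    fin_cases i <;> fin_cases j <;> simp [transvection]
  · exact absurd rfl hij

/-- the inner part is everything -/
theorem all_inner {H : Subgroup (Cor F)}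
    (hT : ∀ x y : F, x ≠ 0 → y ≠ 0 → InM H (dg x (x * y)⁻¹ y))
    (hE : ∀ (i j : Fin 3), i ≠ j → ∀ c : F, InM H (transvection i j c))
    (A : M3 F) (hA : A.det = 1) : InM H A := by
  classical
  obtain ⟨L, L', D, h⟩ := Matrix.Pivot.exists_list_transvec_mul_diagonal_mul_list_transvec A
  have hL : ∀ L : List (TransvectionStruct (Fin 3) F),
      InM H (L.map TransvectionStruct.toMatrix).prod := by
    intro L
    apply InM.list_prod
    intro B hB
    rw [List.mem_map] at hB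
    obtain ⟨t, _, rfl⟩ := hB
    exact hE t.i t.j t.hij t.c
  have hdet : (diagonal D).det = 1 := by
    rw [h, det_mul, det_mul, (hL L).det, (hL L').det, one_mul, mul_one] at hA
    exact hA
  have hprod : D 0 * D 1 * D 2 = 1 := by
    rw [det_diagonal, Fin.prod_univ_three] at hdet
    exact hdet
  have h0 : D 0 ≠ 0 := by
    intro h0; rw [h0] at hprod; simp at hprod
  have h2 : D 2 ≠ 0 := by
    intro h0; rw [h0] at hprod; simp at hprod
  have hD : InM H (diagonal D) := by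
    have := hT (D 0) (D 2) h0 h2
    have e : dg (D 0) (D 0 * D 2)⁻¹ (D 2) = diagonal D := by
      have e1 : (D 0 * D 2)⁻¹ = D 1 := by
        rw [inv_eq_iff_eq_inv]
        apply eq_inv_of_mul_eq_one_left
        linear_combination hprod
      rw [e1]
      ext i j
      fin_cases i <;> fin_cases j <;> simp [dg]
    rwa [e] at this
  rw [h]
  exact ((hL L).mul hD).mul (hL L')

end gen

theorem exg_thm : Pool.SCG.EXGStmt := by
  intro F _ _ τ hG h3 hτ0 hcube hτ a b c d hg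
  set H : Subgroup (Cor F) := Subgroup.closure ({a, b, c, d} : Set (Cor F)) with hH
  have ha : a ∈ H := Subgroup.subset_closure (by simp)
  have hb : b ∈ H := Subgroup.subset_closure (by simp)
  have hc : c ∈ H := Subgroup.subset_closure (by simp)
  have hd : d ∈ H := Subgroup.subset_closure (by simp)
  have hq : InM H !![0, 0, -1; 0, -1, 0; -1, 0, 0] := ⟨b, hb, hg.hb⟩
  have hcM : InM H !![0, -τ⁻¹, 0; -τ, 0, 0; 0, 0, -1] := ⟨c, hc, hg.hc⟩
  have hdM : InM H ((2 * (3 : F)⁻¹) • !![1, 1, 1; 1, 1, 1; 1, 1, 1] - 1) := ⟨d, hd, hg.hd⟩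
  -- the cyclic permutation, outer
  have h1 : Is (a * b) true !![0, 1, 0; 0, 0, 1; 1, 0, 0] := by
    have := hg.ha.mul_inner hg.hb
    have e : (!![0, -1, 0; -1, 0, 0; 0, 0, -1] : M3 F) * !![0, 0, -1; 0, -1, 0; -1, 0, 0] =
        !![0, 1, 0; 0, 0, 1; 1, 0, 0] := by
      simp only [Matrix.mul_fin_three]
      ext i j
      fin_cases i <;> fin_cases j <;> simp
    rwa [e] at this
  have h2 : Is (a * b * (a * b)) false !![0, 0, 1; 1, 0, 0; 0, 1, 0] := by
    have h : (!![0, 1, 0; 0, 0, 1; 1, 0, 0] : M3 F) * !![0, 0, 1; 1, 0, 0; 0, 1, 0] = 1 := by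
      simp only [Matrix.mul_fin_three]
      ext i j
      fin_cases i <;> fin_cases j <;> simp
    have := h1.mul_outer' h1 h
    have e : (!![0, 0, 1; 1, 0, 0; 0, 1, 0] : M3 F).transpose * !![0, 1, 0; 0, 0, 1; 1, 0, 0] =
        !![0, 0, 1; 1, 0, 0; 0, 1, 0] := by
      ext i j
      fin_cases i <;> fin_cases j <;> simp [Matrix.mul_apply, Fin.sum_univ_three]
    rw [e] at this
    simpa using this
  have h3' : Is (a * b * (a * b) * (a * b)) true (1 : M3 F) := by
    have h : (!![0, 0, 1; 1, 0, 0; 0, 1, 0] : M3 F) * !![0, 1, 0; 0, 0, 1; 1, 0, 0] = 1 := by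
      simp only [Matrix.mul_fin_three]
      ext i j
      fin_cases i <;> fin_cases j <;> simp
    have := h2.mul_outer' h1 h
    have e : (!![0, 1, 0; 0, 0, 1; 1, 0, 0] : M3 F).transpose * !![0, 1, 0; 0, 0, 1; 1, 0, 0] =
        1 := by
      ext i j
      fin_cases i <;> fin_cases j <;> simp [Matrix.mul_apply, Fin.sum_univ_three]
    rw [e] at this
    simpa using this
  have hab : a * b ∈ H := H.mul_mem ha hb
  have hθ : a * b * (a * b) * (a * b) ∈ H := H.mul_mem (H.mul_mem hab hab) hab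
  have hp : InM H !![0, -1, 0; -1, 0, 0; 0, 0, -1] := by
    refine ⟨a * (a * b * (a * b) * (a * b)), H.mul_mem ha hθ, ?_⟩
    have h : (!![0, -1, 0; -1, 0, 0; 0, 0, -1] : M3 F) * !![0, -1, 0; -1, 0, 0; 0, 0, -1] = 1 := by
      simp only [Matrix.mul_fin_three]
      ext i j
      fin_cases i <;> fin_cases j <;> simp
    have := hg.ha.mul_outer' h3' h
    have e : (!![0, -1, 0; -1, 0, 0; 0, 0, -1] : M3 F).transpose * 1 =
        !![0, -1, 0; -1, 0, 0; 0, 0, -1] := by
      rw [mul_one]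
      ext i j
      fin_cases i <;> fin_cases j <;> simp
    rw [e] at this
    simpa using this
  have ht : InM H (dg τ τ⁻¹ 1) := by
    have := hp.mul hcM
    have e : (!![0, -1, 0; -1, 0, 0; 0, 0, -1] : M3 F) * !![0, -τ⁻¹, 0; -τ, 0, 0; 0, 0, -1] =
        dg τ τ⁻¹ 1 := by
      simp only [dg, Matrix.mul_fin_three]
      ext i j
      fin_cases i <;> fin_cases j <;> simp
    rwa [e] at this
  have hT := torus τ hτ hq ht
  have hU := elem2 hG.1 h3 hcube hT hdM
  have hE := transv hG.1 hp hq hU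
  have hin : ∀ x : Cor F, x.s = false → x ∈ H := by
    intro x hx
    obtain ⟨y, hy, hyx⟩ := all_inner hT hE (x.m : M3 F) x.m.2
    have : x = y := Is.ext ⟨hx, rfl⟩ hyx
    rw [this]; exact hy
  rw [eq_top_iff]
  intro x _
  by_cases hx : x.s = false
  · exact hin x hx
  · have hx' : x.s = true := by simpa using hx
    have h4 : a * x ∈ H := by
      apply hin
      rw [Cor.mul_s, hg.ha.1, hx']
      rfl
    have h5 : x = a⁻¹ * (a * x) := by group
    rw [h5]
    exact H.mul_mem (H.inv_mem ha) h4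

end Pool.Agent.H82.SCG
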